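import Pool.Agent.Q35.SM.Stm

/-!
# Project SM (helper35), job SM-C: the uniform bound for the number of points in boxes at which an
# open condition fails (helper184)
-/

set_option autoImplicit false
set_option linter.unusedSectionVars false

namespace Pool.Agent.Q184.SM

open Finset Function MvPolynomial
open Pool.Agent.Q35.MM (bx dg Pts fuj)
open Pool.Agent.Q35.SM

/-! ### Polynomials of small degree -/

section Dlt

variable {σ K : Type} [Field K]

/-- Polynomials all of whose monomials have degree less than `d`. -/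
def Dlt (σ K : Type) [Field K] (d : ℕ) : Submodule K (MvPolynomial σ K) where
  carrier := {p | ∀ m ∈ p.support, m.degree < d}
  zero_mem' := by
    intro m hm
    simp at hm
  add_mem' := by
    classical
    intro p q hp hq m hm
    rcases Finset.mem_union.mp (MvPolynomial.support_add hm) with h | h
    · exact hp m h
    · exact hq m h
  smul_mem' := by
    intro c p hp m hm
    exact hp m (MvPolynomial.support_smul hm)

theorem mem_Dlt {d : ℕ} {p : MvPolynomial σ K} : p ∈ Dlt σ K d ↔ ∀ m ∈ p.support, m.degree < d :=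
  Iff.rfl

theorem Dlt_mono {a b : ℕ} (h : a ≤ b) : Dlt σ K a ≤ Dlt σ K b :=
  fun _ hp m hm => lt_of_lt_of_le (hp m hm) h

theorem Dlt_mul {a b : ℕ} {p q : MvPolynomial σ K} (hp : p ∈ Dlt σ K a) (hq : q ∈ Dlt σ K (b + 1)) :
    p * q ∈ Dlt σ K (a + b) := by
  classical
  intro m hm
  obtain ⟨m1, h1, m2, h2, rfl⟩ := Finset.mem_add.mp (MvPolynomial.support_mul p q hm)
  have h3 := hp m1 h1
  have h4 := hq m2 h2
  rw [map_add]
  omega

theorem C_Dlt (c : K) : (C c : MvPolynomial σ K) ∈ Dlt σ K 1 := by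
  classical
  intro m hm
  have : m = 0 := by
    by_contra h
    rw [MvPolynomial.mem_support_iff, MvPolynomial.coeff_C, if_neg (Ne.symm h)] at hm
    exact hm rfl
  subst this
  simp

theorem monomial_Dlt {d : ℕ} {m : σ →₀ ℕ} (h : m.degree < d) (c : K) :
    (monomial m c : MvPolynomial σ K) ∈ Dlt σ K d := by
  classical
  intro m' hm
  have := MvPolynomial.support_monomial_subset hm
  rw [Finset.mem_singleton] at this
  rw [this]
  exact h

theorem X_Dlt (b : σ) : (X b : MvPolynomial σ K) ∈ Dlt σ K 2 := by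
  refine monomial_Dlt ?_ 1
  simp

theorem Dlt_zero {p : MvPolynomial σ K} (hp : p ∈ Dlt σ K 0) : p = 0 := by
  classical
  rw [← MvPolynomial.support_eq_empty]
  by_contra h
  obtain ⟨m, hm⟩ := Finset.nonempty_iff_ne_empty.mpr h
  exact absurd (hp m hm) (Nat.not_lt_zero _)

/-- every polynomial has some degree -/
theorem exists_Dlt (p : MvPolynomial σ K) : ∃ d, p ∈ Dlt σ K d := by
  classical
  refine ⟨p.support.sup (fun m => m.degree) + 1, fun m hm => ?_⟩
  exact Nat.lt_succ_of_le (Finset.le_sup (f := fun m : σ →₀ ℕ => m.degree) hm)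

theorem Dlt_fin [Finite σ] (d : ℕ) : FiniteDimensional K (Dlt σ K d) := by
  classical
  have hfin : {m : σ →₀ ℕ | m.degree < d}.Finite := Finsupp.finite_of_degree_lt d
  have hle : Dlt σ K d ≤
      Submodule.span K ((fun m : σ →₀ ℕ => (monomial m (1 : K) : MvPolynomial σ K)) ''
        {m : σ →₀ ℕ | m.degree < d}) := by
    intro p hp
    rw [MvPolynomial.as_sum p]
    refine Submodule.sum_mem _ fun m hm => ?_
    have h1 : (monomial m (coeff m p) : MvPolynomial σ K) = coeff m p • monomial m (1 : K) := by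
      rw [smul_monomial, smul_eq_mul, mul_one]
    rw [h1]
    exact Submodule.smul_mem _ _ (Submodule.subset_span ⟨m, hp m hm, rfl⟩)
  have : FiniteDimensional K (Submodule.span K
      ((fun m : σ →₀ ℕ => (monomial m (1 : K) : MvPolynomial σ K)) ''
        {m : σ →₀ ℕ | m.degree < d})) :=
    FiniteDimensional.span_of_finite K (hfin.image _)
  exact Submodule.finiteDimensional_of_le hle

/-- `p` and `p'` have degree at most `d`, and the same terms of degree `d`. -/
def Rel (d : ℕ) (p p' : MvPolynomial σ K) : Prop :=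
  p ∈ Dlt σ K (d + 1) ∧ p' ∈ Dlt σ K (d + 1) ∧ p - p' ∈ Dlt σ K d

theorem Rel.mul {a b : ℕ} {p p' q q' : MvPolynomial σ K} (h1 : Rel a p p') (h2 : Rel b q q') :
    Rel (a + b) (p * q) (p' * q') := by
  refine ⟨?_, ?_, ?_⟩
  · have := Dlt_mul h1.1 h2.1
    rwa [show a + 1 + b = a + b + 1 by ring] at this
  · have := Dlt_mul h1.2.1 h2.2.1
    rwa [show a + 1 + b = a + b + 1 by ring] at this
  · have h3 : p * q - p' * q' = (p - p') * q + (q - q') * p' := by ring
    rw [h3]
    refine Submodule.add_mem _ (Dlt_mul h1.2.2 h2.1) ?_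
    have := Dlt_mul h2.2.2 h1.2.1
    rwa [add_comm b a] at this

theorem Rel.refl_C (c : K) : Rel 0 (C c : MvPolynomial σ K) (C c) :=
  ⟨C_Dlt c, C_Dlt c, by rw [sub_self]; exact Submodule.zero_mem _⟩

theorem Rel.one : Rel 0 (1 : MvPolynomial σ K) 1 := by
  have := Rel.refl_C (σ := σ) (1 : K)
  rwa [C_1] at this

theorem Rel.pow {a : ℕ} {p p' : MvPolynomial σ K} (h : Rel a p p') (k : ℕ) :
    Rel (k * a) (p ^ k) (p' ^ k) := by
  induction k with
  | zero => simpa using Rel.one
  | succ k ih =>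
    have := ih.mul h
    rw [show k * a + a = (k + 1) * a by ring] at this
    rwa [pow_succ, pow_succ]

theorem Rel.prod {τ : Type} (s : Finset τ) (a : τ → ℕ) (p p' : τ → MvPolynomial σ K)
    (h : ∀ t ∈ s, Rel (a t) (p t) (p' t)) :
    Rel (∑ t ∈ s, a t) (∏ t ∈ s, p t) (∏ t ∈ s, p' t) := by
  classical
  induction s using Finset.induction_on with
  | empty => simpa using Rel.one
  | insert t s ht ih =>
    rw [Finset.sum_insert ht, Finset.prod_insert ht, Finset.prod_insert ht]
    exact (h t (Finset.mem_insert_self t s)).mul (ih fun u hu => h u (Finset.mem_insert_of_mem hu))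

theorem Rel.sum {τ : Type} (s : Finset τ) (d : ℕ) (p p' : τ → MvPolynomial σ K)
    (h : ∀ t ∈ s, Rel d (p t) (p' t)) :
    Rel d (∑ t ∈ s, p t) (∑ t ∈ s, p' t) := by
  refine ⟨Submodule.sum_mem _ fun t ht => (h t ht).1, Submodule.sum_mem _ fun t ht => (h t ht).2.1,
    ?_⟩
  rw [← Finset.sum_sub_distrib]
  exact Submodule.sum_mem _ fun t ht => (h t ht).2.2

/-- The reduction modulo an ideal to polynomials of degree less than `e`. -/
theorem reduce (J : Ideal (MvPolynomial σ K)) (e : ℕ)
    (h : ∀ β : σ →₀ ℕ, β.degree = e → ∃ p' ∈ Dlt σ K e, monomial β (1 : K) - p' ∈ J)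
    (p : MvPolynomial σ K) : ∃ p' ∈ Dlt σ K e, p - p' ∈ J := by
  classical
  -- the condition for monomials of larger degree
  have h1 : ∀ D, e ≤ D → ∀ β : σ →₀ ℕ, β.degree = D →
      ∃ p' ∈ Dlt σ K D, monomial β (1 : K) - p' ∈ J := by
    intro D hD
    induction D, hD using Nat.le_induction with
    | base => exact h
    | succ D hD ih =>
      intro β hβ
      have hne : β ≠ 0 := by
        rintro rfl
        simp at hβ
      obtain ⟨b, hb⟩ := Finsupp.ne_iff.mp hne
      rw [Finsupp.coe_zero, Pi.zero_apply] at hb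
      have hle : Finsupp.single b 1 ≤ β := by
        rw [Finsupp.single_le_iff]
        omega
      obtain ⟨γ, rfl⟩ := exists_add_of_le hle
      rw [map_add, Finsupp.degree_single] at hβ
      obtain ⟨p', hp', hJ⟩ := ih γ (by omega)
      refine ⟨X b * p', ?_, ?_⟩
      · rw [mul_comm, show D + 1 = D + 1 from rfl]
        exact Dlt_mul hp' (X_Dlt b)
      · have h2 : monomial (Finsupp.single b 1 + γ) (1 : K) - X b * p' =
            X b * (monomial γ (1 : K) - p') := by
          rw [mul_sub, X, monomial_mul, one_mul]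
        rw [h2]
        exact J.mul_mem_left _ hJ
  -- polynomials
  have h2 : ∀ D, e ≤ D → ∀ p ∈ Dlt σ K D, ∃ p' ∈ Dlt σ K e, p - p' ∈ J := by
    intro D hD
    induction D, hD using Nat.le_induction with
    | base => exact fun p hp => ⟨p, hp, by rw [sub_self]; exact J.zero_mem⟩
    | succ D hD ih =>
      intro p hp
      have h3 : ∀ β : σ →₀ ℕ, ∃ p' : MvPolynomial σ K, (β.degree < D + 1 → p' ∈ Dlt σ K D) ∧
          (β.degree < D + 1 → monomial β (1 : K) - p' ∈ J) := by
        intro β
        by_cases hβ : β.degree < D + 1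
        · rcases Nat.lt_succ_iff_lt_or_eq.mp hβ with h4 | h4
          · exact ⟨monomial β 1, fun _ => monomial_Dlt h4 1, fun _ => by
              rw [sub_self]; exact J.zero_mem⟩
          · obtain ⟨p', hp', hJ⟩ := h1 D hD β h4
            exact ⟨p', fun _ => hp', fun _ => hJ⟩
        · exact ⟨0, fun h => absurd h hβ, fun h => absurd h hβ⟩
      choose f hf1 hf2 using h3
      obtain ⟨p'', hp'', hJ''⟩ := ih (∑ m ∈ p.support, coeff m p • f m)
        (Submodule.sum_mem _ fun m hm => Submodule.smul_mem _ _ (hf1 m (hp m hm)))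
      refine ⟨p'', hp'', ?_⟩
      have h5 : p - ∑ m ∈ p.support, coeff m p • f m ∈ J := by
        have h6 : p - ∑ m ∈ p.support, coeff m p • f m =
            ∑ m ∈ p.support, C (coeff m p) * (monomial m (1 : K) - f m) := by
          have h8 : ∀ m, C (coeff m p) * (monomial m (1 : K) - f m) =
              monomial m (coeff m p) - coeff m p • f m := by
            intro m
            rw [mul_sub, C_mul_monomial, mul_one, MvPolynomial.C_mul']
          simp_rw [h8]
          rw [Finset.sum_sub_distrib]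
          congr 1
          exact MvPolynomial.as_sum p
        rw [h6]
        exact J.sum_mem fun m hm => J.mul_mem_left _ (hf2 m (hp m hm))
      have h7 : p - p'' = (p - ∑ m ∈ p.support, coeff m p • f m) +
          ((∑ m ∈ p.support, coeff m p • f m) - p'') := by ring
      rw [h7]
      exact J.add_mem h5 hJ''
  obtain ⟨d, hd⟩ := exists_Dlt p
  exact h2 (max e d) (le_max_left _ _) p (Dlt_mono (le_max_right _ _) hd)

/-- The number of common zeros. -/
theorem zeros_le [Finite σ] (J : Ideal (MvPolynomial σ K)) (e : ℕ)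
    (hJ : ∀ p : MvPolynomial σ K, ∃ p' ∈ Dlt σ K e, p - p' ∈ J) (s : Finset (σ → K))
    (hs : ∀ z ∈ s, ∀ p ∈ J, eval z p = 0) : s.card ≤ Module.finrank K (Dlt σ K e) := by
  classical
  have := Dlt_fin (σ := σ) (K := K) e
  let Φ : s → (MvPolynomial σ K →* K) := fun z => ((eval z.1 : MvPolynomial σ K →+* K) : _ →* K)
  have hΦ : Function.Injective Φ := by
    intro z z' h
    ext b
    have := DFunLike.congr_fun h (X b)
    simpa [Φ] using this
  have hL := (linearIndependent_monoidHom (MvPolynomial σ K) K).comp Φ hΦ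
  let Ψ : s → Module.Dual K (Dlt σ K e) := fun z =>
    ((aeval z.1 : MvPolynomial σ K →ₐ[K] K).toLinearMap).domRestrict (Dlt σ K e)
  have hI : LinearIndependent K Ψ := by
    rw [Fintype.linearIndependent_iff] at hL ⊢
    intro c hc
    refine hL c ?_
    funext p
    obtain ⟨p', hp', hpJ⟩ := hJ p
    have h1 := LinearMap.congr_fun hc ⟨p', hp'⟩
    rw [LinearMap.sum_apply] at h1
    rw [Finset.sum_apply, Pi.zero_apply]
    rw [LinearMap.zero_apply] at h1
    rw [← h1]
    refine Finset.sum_congr rfl fun z _ => ?_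
    have h2 : eval z.1 p = eval z.1 p' := by
      have := hs z.1 z.2 _ hpJ
      rw [map_sub, sub_eq_zero] at this
      exact this
    simp only [Φ, Ψ, Pi.smul_apply, Function.comp_apply, smul_eq_mul, LinearMap.smul_apply,
      LinearMap.domRestrict_apply, AlgHom.toLinearMap_apply, MonoidHom.coe_coe, aeval_eq_eval]
    rw [h2]
  have h3 := hI.fintype_card_le_finrank
  rw [Subspace.dual_finrank_eq, Fintype.card_coe] at h3
  exact h3

end Dlt

/-! ### Substitution -/

section Sub

variable {K : Type} [Field K] {ι : Type} [Fintype ι] [DecidableEq ι] {n : ι → ℕ} {r : ℕ}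

theorem pv_map {A A' : Type} [CommRing A] [Algebra K A] [CommRing A'] [Algebra K A']
    (φ : A →ₐ[K] A') (g : Pol K n) (x : Vs A n) :
    φ (pv A g x) = pv A' g (fun l a => φ (x l a)) := by
  unfold pv
  rw [MvPolynomial.comp_aeval_apply]

theorem update_map {A A' : Type} (φ : A → A') (i : ι) (x : Vs A n) (y : Fin (n i + 1) → A) :
    (fun l a => φ (update x i y l a)) = update (fun l a => φ (x l a)) i (fun a => φ (y a)) := by
  funext l
  by_cases h : l = i
  · subst h
    simp
  · simp [h]

/-- The polynomial `g` at the point `x` with the `i`-th vector replaced by `y + M z`, as a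
polynomial in `z`. -/
noncomputable def q (A : Type) [CommRing A] [Algebra K A] (i : ι)
    (M : Matrix (Fin (n i + 1)) (Fin r) K) (x : Vs A n) (y : Fin (n i + 1) → A) (g : Pol K n) :
    MvPolynomial (Fin r) A :=
  pv (MvPolynomial (Fin r) A) g (update (fun l a => C (x l a)) i
    (fun a => C (y a) + ∑ b, C (algebraMap K A (M a b)) * X b))

theorem q_map {A A' : Type} [CommRing A] [Algebra K A] [CommRing A'] [Algebra K A']
    (φ : A →ₐ[K] A') (i : ι) (M : Matrix (Fin (n i + 1)) (Fin r) K) (x : Vs A n)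
    (y : Fin (n i + 1) → A) (g : Pol K n) :
    MvPolynomial.map (φ : A →+* A') (q A i M x y g) =
      q A' i M (fun l a => φ (x l a)) (fun a => φ (y a)) g := by
  have h := pv_map (MvPolynomial.mapAlgHom (σ := Fin r) φ) g (update (fun l a => C (x l a)) i
    (fun a => C (y a) + ∑ b, C (algebraMap K A (M a b)) * X b))
  rw [update_map] at h
  simp only [MvPolynomial.mapAlgHom_apply, map_add, map_sum, map_mul, MvPolynomial.map_C,
    MvPolynomial.map_X, RingHom.coe_coe, AlgHom.commutes] at h
  exact h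

theorem q_aeval {B : Type} [CommRing B] [Algebra K B] (i : ι)
    (M : Matrix (Fin (n i + 1)) (Fin r) K) (x : Vs K n) (y : Fin (n i + 1) → K) (g : Pol K n)
    (z : Fin r → B) :
    aeval z (q K i M x y g) =
      pv B g (update (fun l a => algebraMap K B (x l a)) i
        (fun a => algebraMap K B (y a) + ∑ b, algebraMap K B (M a b) * z b)) := by
  unfold q
  rw [pv_map, update_map]
  simp only [map_add, map_sum, map_mul, aeval_C, aeval_X, Algebra.algebraMap_self, RingHom.id_apply]

theorem sum_block (i : ι) (m : Var n →₀ ℕ) :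
    ∑ v : Var n, (if v.1 = i then m v else 0) = ∑ a, m ⟨i, a⟩ := by
  rw [Fintype.sum_sigma, Finset.sum_eq_single i]
  · simp
  · intro l _ hl
    simp [hl]
  · simp

theorem pv_sum {A : Type} [CommRing A] [Algebra K A] (g : Pol K n) (u : Vs A n) :
    pv A g u = ∑ m ∈ g.support, algebraMap K A (coeff m g) * ∏ v : Var n, u v.1 v.2 ^ m v := by
  unfold pv
  rw [MvPolynomial.aeval_def, MvPolynomial.eval₂_eq']

/-- The linear polynomials of the matrix. -/
noncomputable def lnr (i : ι) (M : Matrix (Fin (n i + 1)) (Fin r) K) (a : Fin (n i + 1)) :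
    MvPolynomial (Fin r) K :=
  ∑ b, C (M a b) * X b

theorem lnr_hom (i : ι) (M : Matrix (Fin (n i + 1)) (Fin r) K) (a : Fin (n i + 1)) :
    (lnr i M a).IsHomogeneous 1 := by
  refine IsHomogeneous.sum _ _ _ fun b _ => ?_
  exact isHomogeneous_C_mul_X _ _

theorem hom_Dlt {σ : Type} {d : ℕ} {p : MvPolynomial σ K} (h : p.IsHomogeneous d) :
    p ∈ Dlt σ K (d + 1) := by
  intro m hm
  have h1 : m.degree = d := by
    by_contra hne
    rw [MvPolynomial.mem_support_iff] at hm
    exact hm (h.coeff_eq_zero hne)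
  omega

theorem q_hom (i : ι) (M : Matrix (Fin (n i + 1)) (Fin r) K) (x : Vs K n) (g : Pol K n) (d : ℕ)
    (hg : ∀ m ∈ g.support, ∑ a, m ⟨i, a⟩ = d) : (q K i M x 0 g).IsHomogeneous d := by
  unfold q
  rw [pv_sum]
  refine IsHomogeneous.sum _ _ _ fun m hm => ?_
  have h1 : (∏ v : Var n, (update (fun l a => (C (x l a) : MvPolynomial (Fin r) K)) i
      (fun a => C ((0 : Fin (n i + 1) → K) a) + ∑ b, C (algebraMap K K (M a b)) * X b)) v.1 v.2 ^
        m v).IsHomogeneous (∑ v : Var n, (if v.1 = i then m v else 0)) := by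
    refine IsHomogeneous.prod _ _ _ fun v _ => ?_
    obtain ⟨l, a⟩ := v
    by_cases h : l = i
    · subst h
      simp only [update_self, if_true, Pi.zero_apply, C_0, zero_add, Algebra.algebraMap_self,
        RingHom.id_apply]
      have := (lnr_hom l M a).pow (m ⟨l, a⟩)
      rwa [one_mul] at this
    · simp only [h, if_false, update_of_ne (Ne.symm (Ne.symm h))]
      have := (isHomogeneous_C (Fin r) (x l a)).pow (m ⟨l, a⟩)
      rwa [zero_mul] at this
  have h2 := (isHomogeneous_C (Fin r) (coeff m g)).mul h1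
  rw [zero_add, sum_block, hg m hm] at h2
  exact h2

theorem q_rel (i : ι) (M : Matrix (Fin (n i + 1)) (Fin r) K) (x : Vs K n)
    (y : Fin (n i + 1) → K) (g : Pol K n) (d : ℕ)
    (hg : ∀ m ∈ g.support, ∑ a, m ⟨i, a⟩ = d) : Rel d (q K i M x y g) (q K i M x 0 g) := by
  unfold q
  rw [pv_sum, pv_sum]
  refine Rel.sum _ _ _ _ fun m hm => ?_
  have h1 : Rel (∑ v : Var n, (if v.1 = i then m v else 0))
      (∏ v : Var n, (update (fun l a => (C (x l a) : MvPolynomial (Fin r) K)) i
      (fun a => C (y a) + ∑ b, C (algebraMap K K (M a b)) * X b)) v.1 v.2 ^ m v)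
      (∏ v : Var n, (update (fun l a => (C (x l a) : MvPolynomial (Fin r) K)) i
      (fun a => C ((0 : Fin (n i + 1) → K) a) + ∑ b, C (algebraMap K K (M a b)) * X b)) v.1 v.2 ^
        m v) := by
    refine Rel.prod _ _ _ _ fun v _ => ?_
    obtain ⟨l, a⟩ := v
    by_cases h : l = i
    · subst h
      simp only [update_self, if_true, Pi.zero_apply, C_0, zero_add, Algebra.algebraMap_self,
        RingHom.id_apply]
      have h3 : Rel 1 (C (y a) + lnr l M a) (lnr l M a) := by
        have h4 := hom_Dlt (lnr_hom l M a)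
        refine ⟨Submodule.add_mem _ (Dlt_mono (by norm_num) (C_Dlt _)) h4, h4, ?_⟩
        rw [add_sub_cancel_right]
        exact C_Dlt _
      have := h3.pow (m ⟨l, a⟩)
      rwa [mul_one] at this
    · simp only [h, if_false, update_of_ne (Ne.symm (Ne.symm h))]
      have := (Rel.refl_C (σ := Fin r) (x l a)).pow (m ⟨l, a⟩)
      rwa [mul_zero] at this
  have h2 := (Rel.refl_C (σ := Fin r) (coeff m g)).mul h1
  rw [zero_add, sum_block, hg m hm] at h2
  exact h2

end Sub

/-! ### Noetherianity -/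

section Noeth

variable {K : Type} [Field K] {ι : Type} [Fintype ι] [DecidableEq ι] {n : ι → ℕ} {r : ℕ}

/-- Finitely many open conditions. -/
theorem noeth {T : Type} (U : T → Vs K n → Prop)
    (hU : ∀ t x, U t x → ∃ D : Pol K n, pv K D x ≠ 0 ∧ ∀ x', pv K D x' ≠ 0 → U t x') :
    ∃ T0 : Finset T, ∀ t x, U t x → ∃ t0 ∈ T0, U t0 x := by
  classical
  let S : Set (Pol K n) := {D | ∃ t, ∀ x', pv K D x' ≠ 0 → U t x'}
  have hfg : (Ideal.span S).FG := IsNoetherian.noetherian _
  obtain ⟨S0, hS0, hspan⟩ := (Submodule.fg_span_iff_fg_span_finset_subset S).mp hfg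
  have hch : ∀ D : S0, ∃ t, ∀ x', pv K D.1 x' ≠ 0 → U t x' := fun D => hS0 D.2
  choose τ hτ using hch
  refine ⟨Finset.univ.image τ, fun t x ht => ?_⟩
  obtain ⟨D, hD, hD'⟩ := hU t x ht
  by_contra hcon
  push Not at hcon
  have h1 : ∀ D0 ∈ S0, pv K D0 x = 0 := by
    intro D0 hD0
    by_contra h
    exact hcon (τ ⟨D0, hD0⟩) (Finset.mem_image_of_mem τ (Finset.mem_univ _)) (hτ ⟨D0, hD0⟩ x h)
  have h2 : Ideal.span S ≤ RingHom.ker ((aeval (fun v : Var n => x v.1 v.2) : Pol K n →ₐ[K] K) :
      Pol K n →+* K) := by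
    have : Ideal.span S = Ideal.span (S0 : Set (Pol K n)) := hspan
    rw [this, Ideal.span_le]
    intro D0 hD0
    exact h1 D0 hD0
  exact hD (h2 (Ideal.subset_span ⟨t, hD'⟩))

end Noeth

/-! ### The open conditions -/

section Open

variable {K : Type} [Field K] {ι : Type} [Fintype ι] [DecidableEq ι] {n : ι → ℕ} {r : ℕ}

/-- Exponents of degree less than `d`. -/
noncomputable def Ex (r d : ℕ) : Finset (Fin r →₀ ℕ) :=
  (Finsupp.finite_of_degree_lt (σ := Fin r) d).toFinset

theorem mem_Ex {r d : ℕ} {γ : Fin r →₀ ℕ} : γ ∈ Ex r d ↔ γ.degree < d := by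
  unfold Ex
  rw [Set.Finite.mem_toFinset]
  rfl

/-- Exponents of degree `e`. -/
noncomputable def Ee (r e : ℕ) : Finset (Fin r →₀ ℕ) :=
  (Finsupp.finite_of_degree_eq (σ := Fin r) e).toFinset

theorem mem_Ee {r e : ℕ} {γ : Fin r →₀ ℕ} : γ ∈ Ee r e ↔ γ.degree = e := by
  unfold Ee
  rw [Set.Finite.mem_toFinset]
  rfl

/-- The matrix of the multiples of the polynomials in degree `e`. -/
noncomputable def WM (A : Type) [CommRing A] [Algebra K A] (i : ι) (G : Finset (Pol K n))
    (δ : Pol K n → ℕ) (M : Matrix (Fin (n i + 1)) (Fin r) K) (e : ℕ) (x : Vs A n) :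
    Matrix (G × Ex r (e + 1)) (Ee r e) A :=
  fun c β => if c.2.1.degree + δ c.1.1 = e then
    coeff β.1 (monomial c.2.1 (1 : A) * q A i M x 0 c.1.1) else 0

theorem WM_map {A A' : Type} [CommRing A] [Algebra K A] [CommRing A'] [Algebra K A']
    (φ : A →ₐ[K] A') (i : ι) (G : Finset (Pol K n))
    (δ : Pol K n → ℕ) (M : Matrix (Fin (n i + 1)) (Fin r) K) (e : ℕ) (x : Vs A n) :
    (WM A i G δ M e x).map φ = WM A' i G δ M e (fun l a => φ (x l a)) := by
  ext c β
  rw [Matrix.map_apply]
  unfold WM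
  split_ifs with h
  · have h1 := q_map φ i M x 0 c.1.1
    have h2 : (fun a => φ ((0 : Fin (n i + 1) → A) a)) = 0 := by
      funext a
      simp
    rw [h2] at h1
    have h3 : MvPolynomial.map (φ : A →+* A') (monomial c.2.1 (1 : A) * q A i M x 0 c.1.1) =
        monomial c.2.1 (1 : A') * q A' i M (fun l a => φ (x l a)) 0 c.1.1 := by
      rw [map_mul, map_monomial, map_one, h1]
    rw [← h3, coeff_map]
    rfl
  · exact map_zero φ

/-- The condition that the matrix has full rank. -/
def UW (i : ι) (G : Finset (Pol K n)) (δ : Pol K n → ℕ) (M : Matrix (Fin (n i + 1)) (Fin r) K)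
    (e : ℕ) (x : Vs K n) : Prop :=
  ∃ c : Matrix (Ee r e) (G × Ex r (e + 1)) K, c * WM K i G δ M e x = 1

theorem UW_open (i : ι) (G : Finset (Pol K n)) (δ : Pol K n → ℕ)
    (M : Matrix (Fin (n i + 1)) (Fin r) K) (e : ℕ) (x : Vs K n) (h : UW i G δ M e x) :
    ∃ D : Pol K n, pv K D x ≠ 0 ∧ ∀ x', pv K D x' ≠ 0 → UW i G δ M e x' := by
  classical
  obtain ⟨c, hc⟩ := h
  let X0 : Vs (Pol K n) n := fun l a => X ⟨l, a⟩
  let D : Pol K n := ((c.map (algebraMap K (Pol K n))) * WM (Pol K n) i G δ M e X0).det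
  have hD : ∀ x' : Vs K n, pv K D x' = (c * WM K i G δ M e x').det := by
    intro x'
    let φ : Pol K n →ₐ[K] K := aeval (fun v : Var n => x' v.1 v.2)
    have h1 : pv K D x' = φ D := rfl
    rw [h1]
    have h2 := φ.map_det ((c.map (algebraMap K (Pol K n))) * WM (Pol K n) i G δ M e X0)
    have h5 : φ.mapMatrix ((c.map (algebraMap K (Pol K n))) * WM (Pol K n) i G δ M e X0) =
        (c.map (algebraMap K (Pol K n))).map (φ : Pol K n →+* K) *
          (WM (Pol K n) i G δ M e X0).map (φ : Pol K n →+* K) := Matrix.map_mul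
    rw [h2, h5]
    congr 2
    · ext a b
      simp
    · have h3 := WM_map φ i G δ M e X0
      have h4 : (fun l a => φ (X0 l a)) = x' := by
        funext l a
        simp [φ, X0]
      rw [h4] at h3
      exact h3
  refine ⟨D, ?_, fun x' hx' => ?_⟩
  · rw [hD, hc, Matrix.det_one]
    exact one_ne_zero
  · rw [hD] at hx'
    refine ⟨(c * WM K i G δ M e x')⁻¹ * c, ?_⟩
    rw [Matrix.mul_assoc]
    exact Matrix.nonsing_inv_mul _ (isUnit_iff_ne_zero.mpr hx')

theorem UW_reduce (i : ι) (G : Finset (Pol K n)) (δ : Pol K n → ℕ)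
    (hδ : ∀ g ∈ G, ∀ m ∈ g.support, ∑ a, m ⟨i, a⟩ = δ g)
    (M : Matrix (Fin (n i + 1)) (Fin r) K) (e : ℕ) (x : Vs K n) (h : UW i G δ M e x)
    (y : Fin (n i + 1) → K) (β : Fin r →₀ ℕ) (hβ : β.degree = e) :
    ∃ p' ∈ Dlt (Fin r) K e, monomial β (1 : K) - p' ∈
      Ideal.span (Set.range fun g : G => q K i M x y g.1) := by
  classical
  obtain ⟨c, hc⟩ := h
  let β0 : Ee r e := ⟨β, mem_Ee.mpr hβ⟩
  let tm : (G × Ex r (e + 1)) → (Fin (n i + 1) → K) → MvPolynomial (Fin r) K := fun t y' =>
    if t.2.1.degree + δ t.1.1 = e then C (c β0 t) * (monomial t.2.1 (1 : K) * q K i M x y' t.1.1)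
    else 0
  refine ⟨monomial β 1 - ∑ t, tm t y, ?_, ?_⟩
  · have h1 : monomial β (1 : K) - ∑ t, tm t y =
        (monomial β (1 : K) - ∑ t, tm t 0) + ∑ t, (tm t 0 - tm t y) := by
      rw [Finset.sum_sub_distrib]
      ring
    rw [h1]
    refine Submodule.add_mem _ ?_ (Submodule.sum_mem _ fun t _ => ?_)
    · have h2 : monomial β (1 : K) - ∑ t, tm t 0 ∈ Dlt (Fin r) K (e + 1) := by
        refine Submodule.sub_mem _ (monomial_Dlt (by omega) 1) (Submodule.sum_mem _ fun t _ => ?_)
        simp only [tm]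
        split_ifs with ht
        · have h3 := hom_Dlt (q_hom i M x t.1.1 (δ t.1.1) (hδ _ t.1.2))
          have h4 : (monomial t.2.1 (1 : K) : MvPolynomial (Fin r) K) ∈
              Dlt (Fin r) K (t.2.1.degree + 1) := monomial_Dlt (Nat.lt_succ_self _) 1
          have h5 := Dlt_mul h4 h3
          have h6 := Dlt_mul h5 (C_Dlt (σ := Fin r) (c β0 t))
          rw [mul_comm]
          have h7 : t.2.1.degree + 1 + δ t.1.1 + 0 = e + 1 := by omega
          rwa [h7] at h6
        · exact Submodule.zero_mem _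
      intro m hm
      by_contra hlt
      have h3 := h2 m hm
      have h4 : m.degree = e := by omega
      have h5 : (c * WM K i G δ M e x) β0 ⟨m, mem_Ee.mpr h4⟩ =
          (1 : Matrix (Ee r e) (Ee r e) K) β0 ⟨m, mem_Ee.mpr h4⟩ := by rw [hc]
      rw [Matrix.mul_apply] at h5
      rw [MvPolynomial.mem_support_iff] at hm
      refine hm ?_
      rw [coeff_sub, coeff_sum, sub_eq_zero, coeff_monomial]
      have h6 : (1 : Matrix (Ee r e) (Ee r e) K) β0 ⟨m, mem_Ee.mpr h4⟩ =
          if β = m then 1 else 0 := by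
        rw [Matrix.one_apply]
        simp only [β0, Subtype.mk.injEq]
      rw [← h6, ← h5]
      refine Finset.sum_congr rfl fun t _ => ?_
      simp only [tm, WM]
      split_ifs with ht
      · rw [coeff_C_mul]
      · simp
    · simp only [tm]
      split_ifs with ht
      · rw [← mul_sub, ← mul_sub]
        have h3 := (q_rel i M x y t.1.1 (δ t.1.1) (hδ _ t.1.2)).2.2
        have h3' : q K i M x 0 t.1.1 - q K i M x y t.1.1 ∈ Dlt (Fin r) K (δ t.1.1) := by
          rw [← neg_sub]
          exact Submodule.neg_mem _ h3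
        have h4 : (monomial t.2.1 (1 : K) : MvPolynomial (Fin r) K) ∈
            Dlt (Fin r) K (t.2.1.degree + 1) := monomial_Dlt (Nat.lt_succ_self _) 1
        have h5 := Dlt_mul h3' h4
        have h6 := Dlt_mul h5 (C_Dlt (σ := Fin r) (c β0 t))
        rw [mul_comm, mul_comm (monomial t.2.1 (1 : K))]
        have h7 : δ t.1.1 + t.2.1.degree + 0 = e := by omega
        rwa [h7] at h6
      · rw [sub_self]
        exact Submodule.zero_mem _
  · rw [sub_sub_cancel]
    refine Ideal.sum_mem _ fun t _ => ?_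
    simp only [tm]
    split_ifs with ht
    · exact Ideal.mul_mem_left _ _ (Ideal.mul_mem_left _ _ (Ideal.subset_span ⟨t.1, rfl⟩))
    · exact Ideal.zero_mem _

/-- The Nullstellensatz. -/
theorem UW_exists (i : ι) (G : Finset (Pol K n)) (δ : Pol K n → ℕ)
    (hδ : ∀ g ∈ G, ∀ m ∈ g.support, ∑ a, m ⟨i, a⟩ = δ g)
    (M : Matrix (Fin (n i + 1)) (Fin r) K) (x : Vs K n)
    (hcut : ∀ z : Fin r → AlgebraicClosure K, z ≠ 0 → Opn (AlgebraicClosure K) G
      (update (fun l a => algebraMap K (AlgebraicClosure K) (x l a)) i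
        (fun a => ∑ b, algebraMap K (AlgebraicClosure K) (M a b) * z b))) :
    ∃ e, UW i G δ M e x := by
  classical
  set J : Ideal (MvPolynomial (Fin r) K) := Ideal.span (Set.range fun g : G => q K i M x 0 g.1)
    with hJ
  have hrad : ∀ b, (X b : MvPolynomial (Fin r) K) ∈ J.radical := by
    intro b
    rw [← vanishingIdeal_zeroLocus_eq_radical (K := AlgebraicClosure K), mem_vanishingIdeal_iff]
    intro z hz
    have hz0 : z = 0 := by
      by_contra hne
      obtain ⟨g, hg, hg'⟩ := hcut z hne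
      have h1 := hz (q K i M x 0 g) (Ideal.subset_span ⟨⟨g, hg⟩, rfl⟩)
      rw [q_aeval] at h1
      refine hg' ?_
      rw [← h1]
      congr 2
      funext a
      simp
    rw [hz0, aeval_X]
    rfl
  choose mm hmm using hrad
  set e := ∑ b, mm b + 1 with he
  have hmem : ∀ β : Ee r e, (monomial β.1 (1 : K) : MvPolynomial (Fin r) K) ∈ J := by
    intro β
    have hβ := mem_Ee.mp β.2
    obtain ⟨b, hb⟩ : ∃ b, mm b < β.1 b := by
      by_contra hcon
      push Not at hcon
      have h1 : β.1.degree ≤ ∑ b, mm b := by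
        rw [Finsupp.degree_eq_sum]
        exact Finset.sum_le_sum fun b _ => hcon b
      omega
    have hle : Finsupp.single b (mm b) ≤ β.1 := by
      rw [Finsupp.single_le_iff]
      exact hb.le
    obtain ⟨γ, hγ⟩ := exists_add_of_le hle
    have h2 : (monomial β.1 (1 : K) : MvPolynomial (Fin r) K) = X b ^ mm b * monomial γ 1 := by
      rw [hγ, X_pow_eq_monomial, monomial_mul, one_mul]
    rw [h2]
    exact J.mul_mem_right _ (hmm b)
  have hch : ∀ β : Ee r e, ∃ h : G → MvPolynomial (Fin r) K,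
      ∑ g, h g * q K i M x 0 g.1 = monomial β.1 (1 : K) := by
    intro β
    have h1 := hmem β
    rw [hJ] at h1
    exact Ideal.mem_span_range_iff_exists_fun.mp h1
  choose h hh using hch
  refine ⟨e, fun β t => coeff t.2.1 (h β t.1), ?_⟩
  ext β β'
  rw [Matrix.mul_apply, Matrix.one_apply]
  have h1 : coeff β'.1 (monomial β.1 (1 : K) : MvPolynomial (Fin r) K) =
      if β = β' then 1 else 0 := by
    rw [coeff_monomial]
    simp only [Subtype.ext_iff]
  rw [← h1, ← hh β, coeff_sum, Fintype.sum_prod_type]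
  refine Finset.sum_congr rfl fun g _ => ?_
  simp only [WM]
  have hhom := q_hom i M x g.1 (δ g.1) (hδ _ g.2)
  -- both sides are sums over exponents
  have h2 : ∀ γ : Fin r →₀ ℕ, (if γ.degree + δ g.1 = e then
      coeff β'.1 (monomial γ (1 : K) * q K i M x 0 g.1) else 0) =
      coeff β'.1 (monomial γ (1 : K) * q K i M x 0 g.1) := by
    intro γ
    split_ifs with h3
    · rfl
    · have h4 := (isHomogeneous_monomial (1 : K) (rfl : γ.degree = γ.degree)).mul hhom
      rw [h4.coeff_eq_zero]
      rw [mem_Ee.mp β'.2]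
      exact fun h5 => h3 h5.symm
  have h3 : coeff β'.1 (h β g * q K i M x 0 g.1) = ∑ γ ∈ (h β g).support, coeff γ (h β g) *
      coeff β'.1 (monomial γ (1 : K) * q K i M x 0 g.1) := by
    conv_lhs => rw [MvPolynomial.as_sum (h β g)]
    rw [Finset.sum_mul, coeff_sum]
    refine Finset.sum_congr rfl fun γ _ => ?_
    rw [← coeff_C_mul, ← mul_assoc, C_mul_monomial, mul_one]
  rw [h3]
  have h4 : ∀ γ : Fin r →₀ ℕ, γ ∉ Ex r (e + 1) →
      coeff β'.1 (monomial γ (1 : K) * q K i M x 0 g.1) = 0 := by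
    intro γ hγ
    rw [← h2, if_neg]
    rw [mem_Ex] at hγ
    omega
  rw [Finset.sum_coe_sort (Ex r (e + 1)) (fun γ => coeff γ (h β g) * (if γ.degree + δ g.1 = e then
      coeff β'.1 (monomial γ (1 : K) * q K i M x 0 g.1) else 0))]
  simp only [h2]
  have h5 : ∑ γ ∈ Ex r (e + 1), coeff γ (h β g) *
      coeff β'.1 (monomial γ (1 : K) * q K i M x 0 g.1) =
      ∑ γ ∈ Ex r (e + 1) ∪ (h β g).support, coeff γ (h β g) *
      coeff β'.1 (monomial γ (1 : K) * q K i M x 0 g.1) := by
    refine Finset.sum_subset Finset.subset_union_left fun γ _ hγ => ?_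
    rw [h4 γ hγ, mul_zero]
  have h6 : ∑ γ ∈ (h β g).support, coeff γ (h β g) *
      coeff β'.1 (monomial γ (1 : K) * q K i M x 0 g.1) =
      ∑ γ ∈ Ex r (e + 1) ∪ (h β g).support, coeff γ (h β g) *
      coeff β'.1 (monomial γ (1 : K) * q K i M x 0 g.1) := by
    refine Finset.sum_subset Finset.subset_union_right fun γ _ hγ => ?_
    rw [MvPolynomial.notMem_support_iff.mp hγ, zero_mul]
  rw [h5, h6]

end Open

/-! ### Counting -/

section Count

open Pool.Agent.Q35.MM

variable {K : Type} [Field K] [NumberField K]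

theorem top_count (hDB : S_DB) (m' : ℕ) :
    ∃ C : ℝ, 0 ≤ C ∧ ∀ b : ℕ, 1 ≤ b → ((bx K m' b).card : ℝ) ≤ C * (b : ℝ) ^ (dg K * m') := by
  classical
  refine ⟨3 ^ (dg K * m') * ((bx K m' 1).card : ℝ), by positivity, fun b hb => ?_⟩
  have h := hDB K m' ⊤ m' (by rw [finrank_top, Module.finrank_fin_fun]) b 1 le_rfl hb
  rw [Finset.filter_true_of_mem (fun _ _ => Submodule.mem_top),
    Finset.filter_true_of_mem (fun _ _ => Submodule.mem_top)] at h
  refine h.trans (le_of_eq ?_)
  rw [Nat.cast_one, div_one, mul_pow]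
  ring

theorem map_box {N m' : ℕ} (Y : (Fin N → K) →ₗ[K] (Fin m' → K)) :
    ∃ a : K, a ≠ 0 ∧ ∃ c : ℕ, 1 ≤ c ∧ ∀ ρ : ℕ, ∀ y ∈ bx K N ρ, a • Y y ∈ bx K m' (c * ρ) := by
  classical
  obtain ⟨a, ha⟩ := IsLocalization.exist_integer_multiples_of_finite
    (nonZeroDivisors (NumberField.RingOfIntegers K))
    (fun t : Fin m' × Fin N => Y (Pi.single t.2 1) t.1)
  set a' : K := algebraMap (NumberField.RingOfIntegers K) K a.1 with ha'
  have ha0 : a' ≠ 0 := by
    rw [ha', Ne, FaithfulSMul.algebraMap_eq_zero_iff]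
    exact nonZeroDivisors.ne_zero a.2
  set w : Fin m' → Fin N → K := fun b j => a' * Y (Pi.single j 1) b with hw
  have hint : ∀ b j, IsIntegral ℤ (w b j) := by
    intro b j
    obtain ⟨u, hu⟩ := ha (b, j)
    have h1 : w b j = algebraMap (NumberField.RingOfIntegers K) K u := by
      rw [hu, hw, ha', Algebra.smul_def]
    rw [h1]
    exact NumberField.RingOfIntegers.isIntegral_coe u
  set c : ℕ := ⌈∑ φ : K →+* ℂ, ∑ b, ∑ j, ‖φ (w b j)‖⌉₊ + 1 with hc
  have hcb : ∀ (φ : K →+* ℂ) (b : Fin m'), ∑ j, ‖φ (w b j)‖ ≤ c := by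
    intro φ b
    have h1 : ∑ j, ‖φ (w b j)‖ ≤ ∑ b, ∑ j, ‖φ (w b j)‖ :=
      Finset.single_le_sum (f := fun b => ∑ j, ‖φ (w b j)‖)
        (fun b _ => Finset.sum_nonneg fun j _ => norm_nonneg _) (Finset.mem_univ b)
    have h2 : ∑ b, ∑ j, ‖φ (w b j)‖ ≤ ∑ φ : K →+* ℂ, ∑ b, ∑ j, ‖φ (w b j)‖ :=
      Finset.single_le_sum (f := fun φ : K →+* ℂ => ∑ b, ∑ j, ‖φ (w b j)‖)
        (fun φ _ => Finset.sum_nonneg fun b _ => Finset.sum_nonneg fun j _ => norm_nonneg _)
        (Finset.mem_univ φ)
    have h3 := Nat.le_ceil (∑ φ : K →+* ℂ, ∑ b, ∑ j, ‖φ (w b j)‖)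
    rw [hc]
    push_cast
    linarith
  refine ⟨a', ha0, c, by omega, fun ρ y hy => ?_⟩
  rw [mem_bx] at hy ⊢
  intro b
  have h1 : (a' • Y y) b = ∑ j, y j * w b j := by
    have h2 : y = ∑ j, y j • (Pi.single j (1 : K) : Fin N → K) := by
      conv_lhs => rw [← Finset.univ_sum_single y]
      refine Finset.sum_congr rfl fun j _ => ?_
      rw [← Pi.single_smul, smul_eq_mul, mul_one]
    conv_lhs => rw [h2]
    rw [map_sum, Finset.smul_sum, Finset.sum_apply]
    refine Finset.sum_congr rfl fun j _ => ?_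
    rw [map_smul, Pi.smul_apply, Pi.smul_apply, hw, smul_eq_mul, smul_eq_mul]
    ring
  rw [h1]
  refine ⟨IsIntegral.sum _ fun j _ => (hy j).1.mul (hint b j), fun φ => ?_⟩
  rw [map_sum]
  refine (norm_sum_le _ _).trans ?_
  have h3 : ∑ j, ‖φ (y j * w b j)‖ ≤ ∑ j, (ρ : ℝ) * ‖φ (w b j)‖ := by
    refine Finset.sum_le_sum fun j _ => ?_
    rw [map_mul, norm_mul]
    exact mul_le_mul_of_nonneg_right ((hy j).2 φ) (norm_nonneg _)
  refine h3.trans ?_
  rw [← Finset.mul_sum]
  push_cast
  rw [mul_comm (c : ℝ)]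
  exact mul_le_mul_of_nonneg_left (hcb φ b) (Nat.cast_nonneg _)

variable {ι : Type} [Fintype ι] [DecidableEq ι] {n : ι → ℕ} {r : ℕ}

theorem count_one (hDB : S_DB) (i : ι) (G : Finset (Pol K n)) (δ : Pol K n → ℕ)
    (hδ : ∀ g ∈ G, ∀ m ∈ g.support, ∑ a, m ⟨i, a⟩ = δ g) (hr : r ≤ n i + 1)
    (M : Matrix (Fin (n i + 1)) (Fin r) K) (hM : Function.Injective M.mulVecLin) (e : ℕ) :
    ∃ C : ℝ, 0 ≤ C ∧ ∀ x : Vs K n, UW i G δ M e x → ∀ ρ : ℕ, 1 ≤ ρ →
      ∀ [DecidablePred fun y : Fin (n i + 1) → K => ¬ Opn K G (update x i y)],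
      (((bx K (n i + 1) ρ).filter fun y => ¬ Opn K G (update x i y)).card : ℝ) ≤
        C * (ρ : ℝ) ^ (dg K * (n i + 1 - r)) := by
  classical
  -- the linear map
  obtain ⟨Y, hY⟩ : ∃ Y : (Fin (n i + 1) → K) →ₗ[K] (Fin (n i + 1 - r) → K),
      ∀ y, Y y = 0 → ∃ z, M.mulVecLin z = y := by
    let R := LinearMap.range M.mulVecLin
    have h1 : Module.finrank K R = r := by
      rw [LinearMap.finrank_range_of_inj hM, Module.finrank_fin_fun]
    have h2 := Submodule.finrank_quotient_add_finrank R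
    rw [h1, Module.finrank_fin_fun] at h2
    have h3 : Module.finrank K ((Fin (n i + 1) → K) ⧸ R) =
        Module.finrank K (Fin (n i + 1 - r) → K) := by
      rw [Module.finrank_fin_fun]
      omega
    let E := LinearEquiv.ofFinrankEq _ _ h3
    refine ⟨E.toLinearMap ∘ₗ R.mkQ, fun y hy => ?_⟩
    rw [LinearMap.comp_apply, LinearEquiv.coe_coe, LinearEquiv.map_eq_zero_iff,
      Submodule.mkQ_apply, Submodule.Quotient.mk_eq_zero] at hy
    exact hy
  obtain ⟨a, ha, c, hc, hbox⟩ := map_box Y
  obtain ⟨C1, hC1, hC1'⟩ := top_count (K := K) hDB (n i + 1 - r)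
  set De := Module.finrank K (Dlt (Fin r) K e) with hDe
  refine ⟨De * (C1 * (c : ℝ) ^ (dg K * (n i + 1 - r))), by positivity, ?_⟩
  intro x hx ρ hρ _
  set s := (bx K (n i + 1) ρ).filter fun y => ¬ Opn K G (update x i y) with hs
  have h1 : s.card ≤ De * (bx K (n i + 1 - r) (c * ρ)).card := by
    refine Finset.card_le_mul_card_image_of_maps_to (f := fun y => a • Y y) ?_ De ?_
    · intro y hy
      exact hbox ρ y (Finset.mem_filter.mp hy).1
    · intro w _
      rcases (s.filter fun y => a • Y y = w).eq_empty_or_nonempty with h0 | ⟨y0, hy0⟩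
      · rw [h0]
        simp
      · rw [Finset.mem_filter] at hy0
        have h2 : ∀ y ∈ s.filter (fun y => a • Y y = w), ∃ z, M.mulVecLin z = y - y0 := by
          intro y hy
          rw [Finset.mem_filter] at hy
          refine hY _ ?_
          rw [map_sub, sub_eq_zero]
          have h3 : a • Y y = a • Y y0 := by rw [hy.2, hy0.2]
          exact smul_right_injective _ ha h3
        choose! ζ hζ using h2
        have hinj : Set.InjOn ζ (s.filter fun y => a • Y y = w) := by
          intro y hy y' hy' h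
          have h4 := hζ y hy
          have h5 := hζ y' hy'
          rw [h, h5] at h4
          exact (sub_left_injective h4).symm
        rw [← Finset.card_image_of_injOn hinj]
        refine zeros_le (Ideal.span (Set.range fun g : G => q K i M x y0 g.1)) e
          (reduce _ e fun β hβ => UW_reduce i G δ hδ M e x hx y0 β hβ) _ ?_
        intro z hz p hp
        obtain ⟨y, hy, rfl⟩ := Finset.mem_image.mp hz
        have h6 : Ideal.span (Set.range fun g : G => q K i M x y0 g.1) ≤
            RingHom.ker (eval (ζ y) : MvPolynomial (Fin r) K →+* K) := by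
          rw [Ideal.span_le]
          rintro _ ⟨g, rfl⟩
          change eval (ζ y) (q K i M x y0 g.1) = 0
          have h7 := q_aeval i M x y0 g.1 (ζ y)
          rw [aeval_eq_eval] at h7
          have h8 : (update (fun l a => algebraMap K K (x l a)) i
              (fun a => algebraMap K K (y0 a) + ∑ b, algebraMap K K (M a b) * ζ y b)) =
              update x i y := by
            congr 1
            funext a
            have h9 := congrFun (hζ y hy) a
            rw [Matrix.mulVecLin_apply, Pi.sub_apply] at h9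
            have h10 : M.mulVec (ζ y) a = ∑ b, M a b * ζ y b := rfl
            simp only [Algebra.algebraMap_self, RingHom.id_apply]
            rw [← h10, h9]
            ring
          rw [h8] at h7
          have h11 : ¬ Opn K G (update x i y) :=
            (Finset.mem_filter.mp (Finset.mem_filter.mp hy).1).2
          have h12 : pv K g.1 (update x i y) = 0 := by
            by_contra hne
            exact h11 ⟨g.1, g.2, hne⟩
          rw [h12] at h7
          exact h7
        exact h6 hp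
  have h2 := hC1' (c * ρ) (Nat.one_le_iff_ne_zero.mpr (by positivity))
  have h3 : (s.card : ℝ) ≤ De * ((bx K (n i + 1 - r) (c * ρ)).card : ℝ) := by
    exact_mod_cast h1
  refine h3.trans ?_
  have h4 : (De : ℝ) * ((bx K (n i + 1 - r) (c * ρ)).card : ℝ) ≤
      De * (C1 * ((c * ρ : ℕ) : ℝ) ^ (dg K * (n i + 1 - r))) :=
    mul_le_mul_of_nonneg_left h2 (Nat.cast_nonneg _)
  refine h4.trans (le_of_eq ?_)
  push_cast
  rw [mul_pow]
  ring

/-- **SM-C** -/
theorem scnt (hDB : S_DB) : S_C := by
  classical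
  intro K _ _ ι _ _ n r i G hr1 hr hG
  have hδ0 : ∀ g : Pol K n, ∃ d : ℕ, g ∈ G → ∀ m ∈ g.support, ∑ a, m ⟨i, a⟩ = d := by
    intro g
    by_cases hg : g ∈ G
    · obtain ⟨δ, hδ⟩ := hG g hg
      exact ⟨δ i, fun _ m hm => hδ m hm i⟩
    · exact ⟨0, fun h => absurd h hg⟩
  choose δ hδ using hδ0
  let T := {M : Matrix (Fin (n i + 1)) (Fin r) K // Function.Injective M.mulVecLin} × ℕ
  obtain ⟨T0, hT0⟩ := noeth (T := T) (fun t x => UW i G δ t.1.1 t.2 x)
    (fun t x h => UW_open i G δ t.1.1 t.2 x h)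
  have hC : ∀ t : T, ∃ C : ℝ, 0 ≤ C ∧ ∀ x : Vs K n, UW i G δ t.1.1 t.2 x → ∀ ρ : ℕ, 1 ≤ ρ →
      ∀ [DecidablePred fun y : Fin (n i + 1) → K => ¬ Opn K G (update x i y)],
      (((bx K (n i + 1) ρ).filter fun y => ¬ Opn K G (update x i y)).card : ℝ) ≤
        C * (ρ : ℝ) ^ (dg K * (n i + 1 - r)) :=
    fun t => count_one hDB i G δ (fun g hg => hδ g hg) hr t.1.1 t.1.2 t.2
  choose C hC0 hC' using hC
  refine ⟨∑ t ∈ T0, C t, Finset.sum_nonneg fun t _ => hC0 t, fun x hx ρ hρ _ => ?_⟩
  obtain ⟨M, hM⟩ := hx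
  by_cases hinj : Function.Injective M.mulVecLin
  · have hM' : ∀ z : Fin r → AlgebraicClosure K, z ≠ 0 → Opn (AlgebraicClosure K) G
        (update (fun l a => algebraMap K (AlgebraicClosure K) (x l a)) i
          (fun a => ∑ b, algebraMap K (AlgebraicClosure K) (M a b) * z b)) := hM
    obtain ⟨e, he⟩ := UW_exists i G δ (fun g hg => hδ g hg) M x hM'
    obtain ⟨t0, ht0, ht0'⟩ := hT0 (⟨M, hinj⟩, e) x he
    refine (hC' t0 x ht0' ρ hρ).trans ?_
    refine mul_le_mul_of_nonneg_right ?_ (by positivity)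
    exact Finset.single_le_sum (fun t _ => hC0 t) ht0
  · -- nothing to count
    have h1 : ∃ z0 : Fin r → K, z0 ≠ 0 ∧ M.mulVecLin z0 = 0 := by
      rw [injective_iff_map_eq_zero] at hinj
      push Not at hinj
      obtain ⟨z0, h2, h3⟩ := hinj
      exact ⟨z0, h3, h2⟩
    obtain ⟨z0, hz0, hz0'⟩ := h1
    obtain ⟨g, hg, hg'⟩ := hM (fun b => algebraMap K _ (z0 b)) (by
      intro h
      apply hz0
      funext b
      have := congrFun h b
      simpa using this)
    have h4 : (update (fun l a => algebraMap K (AlgebraicClosure K) (x l a)) i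
        (fun a => ∑ b, algebraMap K (AlgebraicClosure K) (M a b) *
          algebraMap K (AlgebraicClosure K) (z0 b))) =
        fun l a => algebraMap K (AlgebraicClosure K) (update x i 0 l a) := by
      have h5 := update_map (algebraMap K (AlgebraicClosure K)) i x 0
      rw [h5]
      congr 1
      funext a
      have h6 := congrFun hz0' a
      rw [Matrix.mulVecLin_apply] at h6
      have h7 : M.mulVec z0 a = ∑ b, M a b * z0 b := rfl
      rw [h7] at h6
      simp only [← map_mul, ← map_sum]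
      rw [h6]
    rw [h4] at hg'
    have h8 : pv K g (update x i 0) ≠ 0 := by
      intro h
      apply hg'
      have h9 := pv_map (Algebra.ofId K (AlgebraicClosure K)) g (update x i 0)
      rw [h, map_zero] at h9
      exact h9.symm
    have h10 : ∀ y : Fin (n i + 1) → K, Opn K G (update x i y) := by
      intro y
      refine ⟨g, hg, ?_⟩
      have h11 : pv K g (update x i y) = pv K g (update x i 0) := by
        rw [pv_sum, pv_sum]
        by_contra hne
        -- the degree is zero
        have h12 : δ g = 0 := by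
          by_contra hd
          apply h8
          rw [pv_sum]
          refine Finset.sum_eq_zero fun m hm => ?_
          have h13 := hδ g hg m hm
          obtain ⟨a, ha⟩ : ∃ a, m ⟨i, a⟩ ≠ 0 := by
            by_contra hcon
            push Not at hcon
            rw [Finset.sum_eq_zero fun a _ => hcon a] at h13
            exact hd h13.symm
          rw [Finset.prod_eq_zero (Finset.mem_univ (⟨i, a⟩ : Var n)), mul_zero]
          simp [ha]
        apply hne
        refine Finset.sum_congr rfl fun m hm => ?_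
        congr 1
        refine Finset.prod_congr rfl fun v _ => ?_
        obtain ⟨l, a⟩ := v
        by_cases hl : l = i
        · subst hl
          have h13 := hδ g hg m hm
          rw [h12, Finset.sum_eq_zero_iff] at h13
          rw [h13 a (Finset.mem_univ a), pow_zero, pow_zero]
        · simp only [update_of_ne hl]
      rw [h11]
      exact h8
    have h14 : ((bx K (n i + 1) ρ).filter fun y => ¬ Opn K G (update x i y)) = ∅ := by
      rw [Finset.filter_eq_empty_iff]
      intro y _
      rw [not_not]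
      exact h10 y
    rw [h14, Finset.card_empty, Nat.cast_zero]
    exact mul_nonneg (Finset.sum_nonneg fun t _ => hC0 t) (by positivity)

end Count

end Pool.Agent.Q184.SM
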